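import Pool.Agent.Helper93.TH3.StD
import Pool.Agent.Helper6.W3.M_Nf
import Pool.Agent.Helper16.W3.M_SubA
import Pool.Agent.Helper25.W3.M_SubB
import Pool.Agent.Helper86.W3.M_Prd

/-!
# Project TH3 (levels `2·3^n`), module LdA: leading forms of `T_7 + 1`

The operator lemmas are adapted from `Pool/Agent/Helper7/W3/M_Ld.lean`.
-/

set_option autoImplicit false

namespace Pool.Agent.Helper94.TH3

open Pool.Agent.Helper14.CV (Homog EqC act Tl StFar StFex)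
open Pool.Agent.Helper28.WK (Tw evw)
open Pool.Agent.Helper78.W3 (tr Fn3 Tm opL op3 mulT mulL negL Wd3 dX dY oD oN Lw sS M5 bb3 S3PlA S3Trm S3Low0 S3Nf S3Exp S3Lw1 S3Bb)
open Pool.Agent.Helper93.TLH (HTy SymH SHHk SHHkS LBH)
open Pool.Agent.Helper93.TLE (DDE)
open Pool.Agent.Helper93.TH3

section lists

variable {q q' : ℕ}

private lemma opL_nil : (opL [] : Module.End (ZMod 3) (Fn3 q q')) = 0 := by simp [opL]

private lemma opL_cons (t : Tm) (L : List Tm) : (opL (t :: L) : Module.End (ZMod 3) (Fn3 q q')) =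
    ((t.1 : ℤ) : ZMod 3) • op3 t.2.1 t.2.2.1 t.2.2.2.1 t.2.2.2.2 + opL L := by simp [opL]

private lemma opL_app (L L' : List Tm) :
    (opL (L ++ L') : Module.End (ZMod 3) (Fn3 q q')) = opL L + opL L' := by simp [opL]

private lemma sub_smul3 (a b : ZMod 3) (X : Module.End (ZMod 3) (Fn3 q q')) : (a - b) • X = a • X - b • X := by
  refine LinearMap.ext fun F => ?_
  funext x y
  change (a - b) * X F x y = a * X F x y - b * X F x y
  ring

private lemma sum_aux {ι : Type} (S : Finset ι) (a b : ι → ZMod 3) (X : ι → Module.End (ZMod 3) (Fn3 q q')) :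
    ∑ t ∈ S, (a t - b t) • X t = ∑ t ∈ S, a t • X t - ∑ t ∈ S, b t • X t := by
  rw [← Finset.sum_sub_distrib]
  exact Finset.sum_congr rfl fun t _ => sub_smul3 _ _ _

private lemma neg_smul3 (a : ZMod 3) (X : Module.End (ZMod 3) (Fn3 q q')) : (-a) • X = -(a • X) := by
  refine LinearMap.ext fun F => ?_
  funext x y
  change (-a) * X F x y = -(a * X F x y)
  ring

private lemma opL_sc (n : ℤ) (L : List Tm) :
    (opL (scT n L) : Module.End (ZMod 3) (Fn3 q q')) = ((n : ℤ) : ZMod 3) • opL L := by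
  induction L with
  | nil => simp [scT, opL_nil]
  | cons t L ih =>
    have h : scT n (t :: L) = (n * t.1, t.2) :: scT n L := rfl
    rw [h, opL_cons, opL_cons, ih, smul_add, smul_smul]
    push_cast
    rfl

end lists

private lemma gd_app {L L' : List Tm} (h : ∀ t ∈ L, GdT t) (h' : ∀ t ∈ L', GdT t) : ∀ t ∈ L ++ L', GdT t := by
  intro t ht
  rcases List.mem_append.1 ht with h1 | h1
  · exact h t h1
  · exact h' t h1

private lemma gd_sc (n : ℤ) {L : List Tm} (h : ∀ t ∈ L, GdT t) : ∀ t ∈ scT n L, GdT t := by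
  intro t ht
  obtain ⟨u, hu, rfl⟩ := List.mem_map.1 ht
  exact h u hu

private lemma nd3 (x y z : ℤ) (hx : ¬ (3 : ℤ) ∣ x) (hy : ¬ (3 : ℤ) ∣ y) (hz : (3 : ℤ) ∣ z) :
    ¬ (3 : ℤ) ∣ x * y + z := by
  intro hd
  have h1 : (3 : ℤ) ∣ x * y := by
    have := dvd_sub hd hz
    simpa using this
  rcases Int.prime_three.dvd_or_dvd h1 with h | h
  · exact hx h
  · exact hy h

private lemma gd_mulT {t t' : Tm} (h : GdT t) (h' : GdT t') : GdT (mulT t t') := by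
  obtain ⟨a, b⟩ := h
  obtain ⟨a', b'⟩ := h'
  refine ⟨?_, ?_⟩
  · exact nd3 _ _ (9 * t.2.2.1 * t'.2.2.2.1) a a' ⟨3 * t.2.2.1 * t'.2.2.2.1, by ring⟩
  · have := nd3 _ _ (9 * t.2.2.2.1 * t'.2.2.1) b b' ⟨3 * t.2.2.2.1 * t'.2.2.1, by ring⟩
    rw [add_comm] at this
    exact this

private lemma gd_mulL {L L' : List Tm} (h : ∀ t ∈ L, GdT t) (h' : ∀ t ∈ L', GdT t) :
    ∀ t ∈ mulL L L', GdT t := by
  intro t ht
  unfold mulL at ht
  obtain ⟨u, hu, hu'⟩ := List.mem_flatMap.1 ht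
  obtain ⟨v, hv, rfl⟩ := List.mem_map.1 hu'
  exact gd_mulT (h u hu) (h' v hv)

private lemma gd_id (n : ℤ) (i f : Fin 5) : ∀ t ∈ idT n i f, GdT t := by
  intro t ht
  unfold idT at ht
  split_ifs at ht
  · rw [List.mem_singleton] at ht
    subst ht
    exact ⟨by norm_num, by norm_num⟩
  · simp at ht

private lemma gd_BAT (hg : TCeG) (i f : Fin 5) : ∀ t ∈ BAT i f, GdT t := by
  have a7 := (hg.1 i f).2.1
  have ar : ∀ ρ f, ∀ t ∈ relT ρ f, GdT t := hg.2.1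
  have am : ∀ ρ, ∀ t ∈ mAT i ρ, GdT t := fun ρ => (hg.2.2 i ρ).2.2.1
  unfold BAT ALT rmT
  exact gd_app (gd_app a7 (gd_id 1 i f)) (gd_sc _ (gd_app (gd_app (gd_mulL (am 0) (ar 0 f))
    (gd_mulL (am 1) (ar 1 f))) (gd_mulL (am 2) (ar 2 f))))

section ops

variable {r s : ℕ}

private lemma op3_mul (hTrm : S3Trm) (a b c d a' b' c' d' : ℤ) (ha : ¬ 3 ∣ a) (hd : ¬ 3 ∣ d) (ha' : ¬ 3 ∣ a')
    (hd' : ¬ 3 ∣ d') : (op3 a b c d * op3 a' b' c' d' : Module.End (ZMod 3) (Fn3 (3 ^ r) (3 ^ s))) =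
      op3 (a * a' + 9 * b * c') (a * b' + b * d') (c * a' + d * c') (9 * c * b' + d * d') := by
  refine LinearMap.ext fun F => ?_
  exact (hTrm (ZMod 3) r s F).1 a b c d a' b' c' d' ha hd ha' hd'

private lemma opL_map (hTrm : S3Trm) (t : Tm) (ht : GdT t) (L : List Tm)
    (hL : ∀ t ∈ L, GdT t) : (opL (L.map fun t' => mulT t t') : Module.End (ZMod 3) (Fn3 (3 ^ r) (3 ^ s))) =
      (((t.1 : ℤ) : ZMod 3) • op3 t.2.1 t.2.2.1 t.2.2.2.1 t.2.2.2.2) * opL L := by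
  induction L with
  | nil => simp [opL_nil]
  | cons t' L ih =>
    have h1 := hL t' List.mem_cons_self
    rw [List.map_cons, opL_cons, opL_cons, ih fun x hx => hL x (List.mem_cons_of_mem _ hx), mul_add]
    congr 1
    rw [smul_mul_smul_comm, op3_mul hTrm _ _ _ _ _ _ _ _ ht.1 ht.2 h1.1 h1.2]
    unfold mulT
    push_cast
    rfl

private lemma opL_mul (hTrm : S3Trm) (L L' : List Tm) (hL : ∀ t ∈ L, GdT t) (hL' : ∀ t ∈ L', GdT t) :
    (opL (mulL L L') : Module.End (ZMod 3) (Fn3 (3 ^ r) (3 ^ s))) = opL L * opL L' := by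
  induction L with
  | nil => simp [mulL, opL_nil]
  | cons t L ih =>
    have h : mulL (t :: L) L' = (L'.map fun t' => mulT t t') ++ mulL L L' := by
      unfold mulL
      rw [List.flatMap_cons]
    rw [h, opL_app, opL_map hTrm t (hL t List.mem_cons_self) L' hL', opL_cons, add_mul,
      ih fun x hx => hL x (List.mem_cons_of_mem _ hx)]

/-- Multiples of the relations vanish. -/
private lemma rm_zero (hTrm : S3Trm) (hr : TRll) (hg : TCeG) (F : Fin 5 → Fn3 (3 ^ r) (3 ^ s)) (h : RelT F)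
    (M : Fin 5 → Fin 3 → List Tm) (i : Fin 5) (hM : ∀ ρ, ∀ t ∈ M i ρ, GdT t) :
    ∑ f : Fin 5, opL (rmT M i f) (F f) = 0 := by
  have ar : ∀ ρ f, ∀ t ∈ relT ρ f, GdT t := hg.2.1
  have h1 : ∀ f, opL (rmT M i f) (F f) = opL (M i 0) (opL (relT 0 f) (F f)) +
      opL (M i 1) (opL (relT 1 f) (F f)) + opL (M i 2) (opL (relT 2 f) (F f)) := by
    intro f
    unfold rmT
    rw [opL_app, opL_app, opL_mul hTrm _ _ (hM 0) (ar 0 f), opL_mul hTrm _ _ (hM 1) (ar 1 f),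
      opL_mul hTrm _ _ (hM 2) (ar 2 f)]
    rfl
  rw [Finset.sum_congr rfl fun f _ => h1 f, Finset.sum_add_distrib, Finset.sum_add_distrib, ← map_sum,
    ← map_sum, ← map_sum, hr r s F h 0, hr r s F h 1, hr r s F h 2, map_zero, map_zero, map_zero,
    add_zero, add_zero]

private lemma sum_BAT (hTrm : S3Trm) (hr : TRll) (hg : TCeG) (F : Fin 5 → Fn3 (3 ^ r) (3 ^ s)) (h : RelT F)
    (i : Fin 5) : ∑ f : Fin 5, opL (ALT i f) (F f) = ∑ f : Fin 5, opL (BAT i f) (F f) := by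
  have e : ∀ f, opL (BAT i f) (F f) = opL (ALT i f) (F f) +
      ((-1 : ℤ) : ZMod 3) • opL (rmT mAT i f) (F f) := by
    intro f
    unfold BAT
    rw [opL_app, opL_sc]
    rfl
  rw [Finset.sum_congr rfl fun f _ => e f, Finset.sum_add_distrib, ← Finset.smul_sum,
    rm_zero hTrm hr hg F h mAT i (fun ρ => (hg.2.2 i ρ).2.2.1), smul_zero, add_zero]

/-- the monomials -/
private def mon (t : ℕ × ℕ × ℕ) : Module.End (ZMod 3) (Fn3 (3 ^ r) (3 ^ s)) :=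
  (oD - 1) ^ t.1 * dX ^ t.2.1 * dY ^ t.2.2

private lemma lw_zero (k : ℤ) : Lw (0 : Module.End (ZMod 3) (Fn3 (3 ^ r) (3 ^ s))) k := by
  intro d F _
  rw [LinearMap.zero_apply]
  exact Submodule.zero_mem _

private lemma lw_pow (hLow0 : S3Low0) (O : Module.End (ZMod 3) (Fn3 (3 ^ r) (3 ^ s))) (k : ℕ) (h : Lw O k) (n : ℕ) :
    Lw (O ^ n) ((k * n : ℕ) : ℤ) := by
  obtain ⟨l1, l2, l3, l4, l5, l6, l7, l8, _⟩ := hLow0 r s
  induction n with
  | zero => simpa using l6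
  | succ n ih =>
    rw [pow_succ]
    have := l1 _ _ _ _ ih h
    have e : ((k * n : ℕ) : ℤ) + k = ((k * (n + 1) : ℕ) : ℤ) := by push_cast; ring
    rw [e] at this
    exact this

private lemma lw_mon (hLow0 : S3Low0) (hNf : S3Nf) (t : ℕ × ℕ × ℕ) :
    Lw (mon t : Module.End (ZMod 3) (Fn3 (3 ^ r) (3 ^ s))) ((2 * t.1 + t.2.1 + t.2.2 : ℕ) : ℤ) := by
  obtain ⟨l1, l2, l3, l4, l5, l6, l7, l8, _⟩ := hLow0 r s
  have h0 := lw_pow hLow0 (oD - 1 : Module.End (ZMod 3) (Fn3 (3 ^ r) (3 ^ s))) 2 (hNf r s).1 t.1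
  have h1 := lw_pow hLow0 (dX : Module.End (ZMod 3) (Fn3 (3 ^ r) (3 ^ s))) 1 (by exact_mod_cast l7) t.2.1
  have h2 := lw_pow hLow0 (dY : Module.End (ZMod 3) (Fn3 (3 ^ r) (3 ^ s))) 1 (by exact_mod_cast l8) t.2.2
  have h := l1 _ _ _ _ (l1 _ _ _ _ h0 h1) h2
  have e : ((2 * t.1 : ℕ) : ℤ) + ((1 * t.2.1 : ℕ) : ℤ) + ((1 * t.2.2 : ℕ) : ℤ)
      = ((2 * t.1 + t.2.1 + t.2.2 : ℕ) : ℤ) := by push_cast; ring
  rw [e] at h
  exact h

private lemma lw_sum (hLow0 : S3Low0) {ι : Type} (S : Finset ι) (O : ι → Module.End (ZMod 3) (Fn3 (3 ^ r) (3 ^ s)))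
    (k : ℤ) (h : ∀ i ∈ S, Lw (O i) k) : Lw (∑ i ∈ S, O i) k := by
  classical
  obtain ⟨l1, l2, _⟩ := hLow0 r s
  induction S using Finset.induction_on with
  | empty => simpa using lw_zero k
  | insert a S ha ih =>
    rw [Finset.sum_insert ha]
    exact l2 _ _ _ (h a (Finset.mem_insert_self _ _)) (ih fun i hi => h i (Finset.mem_insert_of_mem hi))

/-- the expansion with prescribed coefficients -/
private lemma key (hLow0 : S3Low0) (hNf : S3Nf) (hExp : S3Exp) (L : List Tm)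
    (hL : ∀ t ∈ L, (t.2.1 * t.2.2.2.2) % 3 = 1) (k : ℕ) (hk : k ≤ 5) (c : ℕ × ℕ × ℕ → ZMod 3)
    (hc : ∀ t ∈ M5, 2 * t.1 + t.2.1 + t.2.2 < k → ((sS L t.1 t.2.1 t.2.2 : ℤ) : ZMod 3) = c t) :
    Lw ((opL L : Module.End (ZMod 3) (Fn3 (3 ^ r) (3 ^ s))) - ∑ t ∈ M5, c t • mon t) k := by
  obtain ⟨l1, l2, l3, l4, _⟩ := hLow0 r s
  have h0 : Lw ((opL L : Module.End (ZMod 3) (Fn3 (3 ^ r) (3 ^ s))) - ∑ t ∈ M5, ((sS L t.1 t.2.1 t.2.2 : ℤ) : ZMod 3) •
      (mon t : Module.End (ZMod 3) (Fn3 (3 ^ r) (3 ^ s)))) 5 := by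
    have := hExp r s L hL
    unfold mon
    convert this using 2
  have h1 := l4 _ _ (k : ℤ) (by exact_mod_cast hk) h0
  have h2 : Lw (∑ t ∈ M5, (((sS L t.1 t.2.1 t.2.2 : ℤ) : ZMod 3) - c t) •
      (mon t : Module.End (ZMod 3) (Fn3 (3 ^ r) (3 ^ s)))) k := by
    refine lw_sum hLow0 _ _ _ fun t ht => ?_
    by_cases hw : 2 * t.1 + t.2.1 + t.2.2 < k
    · rw [hc t ht hw, sub_self, zero_smul]
      exact lw_zero _
    · exact l3 _ _ _ (l4 _ _ (k : ℤ) (by exact_mod_cast not_lt.1 hw) (lw_mon hLow0 hNf t))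
  have h3 := l2 _ _ _ h1 h2
  rw [sum_aux M5 (fun t => ((sS L t.1 t.2.1 t.2.2 : ℤ) : ZMod 3)) c
    (fun t => (mon t : Module.End (ZMod 3) (Fn3 (3 ^ r) (3 ^ s)))), sub_add_sub_cancel] at h3
  exact h3

private lemma cast3 {S C : ℤ} (h : (3 : ℤ) ∣ S - C) : (S : ZMod 3) = (C : ZMod 3) := by
  have h1 := (ZMod.intCast_zmod_eq_zero_iff_dvd (S - C) 3).2 (by exact_mod_cast h)
  push_cast at h1
  exact sub_eq_zero.1 h1

private lemma sum_M5 (S : Finset (ℕ × ℕ × ℕ)) (hS : S ⊆ M5) (c : ℕ × ℕ × ℕ → ZMod 3) (hc : ∀ t, t ∉ S → c t = 0) :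
    ∑ t ∈ M5, c t • (mon t : Module.End (ZMod 3) (Fn3 (3 ^ r) (3 ^ s))) = ∑ t ∈ S, c t • mon t := by
  refine (Finset.sum_subset hS fun t _ hn => ?_).symm
  rw [hc t hn, zero_smul]

/-- No coefficients of small weight. -/
private lemma key0 (hLow0 : S3Low0) (hNf : S3Nf) (hExp : S3Exp) (L : List Tm)
    (hL : ∀ t ∈ L, (t.2.1 * t.2.2.2.2) % 3 = 1) (k : ℕ) (hk : k ≤ 5)
    (hc : ∀ t ∈ M5, 2 * t.1 + t.2.1 + t.2.2 < k → (3 : ℤ) ∣ sS L t.1 t.2.1 t.2.2) :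
    Lw (opL L : Module.End (ZMod 3) (Fn3 (3 ^ r) (3 ^ s))) k := by
  have h := key hLow0 hNf hExp (r := r) (s := s) L hL k hk (fun _ => 0) (fun t ht hw => by
    have := cast3 (S := sS L t.1 t.2.1 t.2.2) (C := 0) (by rw [sub_zero]; exact hc t ht hw)
    rw [this]
    simp)
  simp only [zero_smul, Finset.sum_const_zero, sub_zero] at h
  exact h

/-- Two coefficients of weight two. -/
private lemma key2 (hLow0 : S3Low0) (hNf : S3Nf) (hExp : S3Exp) (L : List Tm)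
    (hL : ∀ t ∈ L, (t.2.1 * t.2.2.2.2) % 3 = 1) (t1 t2 : ℕ × ℕ × ℕ) (h12 : t1 ≠ t2) (h1 : t1 ∈ M5) (h2 : t2 ∈ M5)
    (C : ℕ × ℕ × ℕ → ℤ) (hC : ∀ t, t ≠ t1 → t ≠ t2 → C t = 0)
    (hc : ∀ t ∈ M5, 2 * t.1 + t.2.1 + t.2.2 ≤ 2 → (3 : ℤ) ∣ sS L t.1 t.2.1 t.2.2 - C t) :
    Lw ((opL L : Module.End (ZMod 3) (Fn3 (3 ^ r) (3 ^ s))) -
      (((C t1 : ℤ) : ZMod 3) • mon t1 + ((C t2 : ℤ) : ZMod 3) • mon t2)) 3 := by
  have h := key hLow0 hNf hExp (r := r) (s := s) L hL 3 (by norm_num) (fun t => ((C t : ℤ) : ZMod 3))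
    (fun t ht hw => cast3 (hc t ht (by omega)))
  rw [sum_M5 {t1, t2} (by
      intro t ht
      rcases Finset.mem_insert.1 ht with h3 | h3
      · rw [h3]; exact h1
      · rw [Finset.mem_singleton.1 h3]; exact h2) _ (fun t ht => by
        rw [Finset.mem_insert, Finset.mem_singleton, not_or] at ht
        rw [hC t ht.1 ht.2]
        simp), Finset.sum_insert (by rw [Finset.mem_singleton]; exact h12), Finset.sum_singleton] at h
  exact_mod_cast h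

end ops

/-- Module LDA. -/
theorem hLdA (ht : S3Trm) (hl : S3Low0) (he : S3Exp) (h1 : S3Lw1) (hs : TSpl) (hr : TRll) (hg : TCeG)
    (hc : TCeA) (hw : TLwt) : TLdA := by
  have hNf : S3Nf := Pool.Agent.Helper6.W3.hNf hl
    (Pool.Agent.Helper16.W3.hSubA hl (Pool.Agent.Helper86.W3.hPrd hl))
    (Pool.Agent.Helper25.W3.hSubB hl (Pool.Agent.Helper86.W3.hPrd hl))
  intro r s d F hR hF
  obtain ⟨cA, cB⟩ := hc
  obtain ⟨-, -, -, -, wN, -, -⟩ := h1 r s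
  obtain ⟨-, -, -, wE, -⟩ := hw r s
  have sp : ∀ i f : Fin 5, (∀ G : Fn3 (3 ^ r) (3 ^ s), opL (BAT i f) G = opL (pA (BAT i f)) G + oN (opL (pB (BAT i f)) G)) ∧
      (∀ t ∈ pA (BAT i f), (t.2.1 * t.2.2.2.2) % 3 = 1) ∧ (∀ t ∈ pB (BAT i f), (t.2.1 * t.2.2.2.2) % 3 = 1) := by
    intro i f
    obtain ⟨e, p1, p2⟩ := hs r s (BAT i f) (gd_BAT hg i f)
    refine ⟨fun G => ?_, p1, p2⟩
    rw [e]
    rfl
  have oN0 : ∀ (e : ℤ) (G : Fn3 (3 ^ r) (3 ^ s)), G ∈ Wd3 e → oN G ∈ Wd3 e := by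
    intro e G hG
    have := wN e G hG
    rwa [sub_zero] at this
  refine ⟨fun i => ?_, fun hd => ?_⟩
  · rw [sum_BAT ht hr hg F hR i]
    refine Submodule.sum_mem _ fun f _ => ?_
    obtain ⟨e, p1, p2⟩ := sp i f
    have a1 : Lw (opL (pA (BAT i f)) : Module.End (ZMod 3) (Fn3 (3 ^ r) (3 ^ s))) ((2 : ℕ) : ℤ) :=
      key0 hl hNf he _ p1 2 (by norm_num) fun t ht hw => (cB i f t ht (by omega)).1
    have a2 : Lw (opL (pB (BAT i f)) : Module.End (ZMod 3) (Fn3 (3 ^ r) (3 ^ s))) ((2 : ℕ) : ℤ) :=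
      key0 hl hNf he _ p2 2 (by norm_num) fun t ht hw => (cB i f t ht (by omega)).2
    rw [e]
    have b1 := a1 d (F f) (hF f)
    have b2 := oN0 _ _ (a2 d (F f) (hF f))
    exact Submodule.add_mem _ (by exact_mod_cast b1) (by exact_mod_cast b2)
  · have m1 : (((1 : ℤ)) : ZMod 3) = 1 := by decide
    have m2 : (((2 : ℤ)) : ZMod 3) = -1 := by decide
    have hmY : (mon (0, 0, 2) : Module.End (ZMod 3) (Fn3 (3 ^ r) (3 ^ s))) = dY ^ 2 := by
      unfold mon; simp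
    have hmX : (mon (0, 2, 0) : Module.End (ZMod 3) (Fn3 (3 ^ r) (3 ^ s))) = dX ^ 2 := by
      unfold mon; simp
    have hmXY : (mon (0, 1, 1) : Module.End (ZMod 3) (Fn3 (3 ^ r) (3 ^ s))) = dX * dY := by
      unfold mon; simp
    -- the column of `F 0`
    have A0 : Lw ((opL (pA (BAT 0 0)) : Module.End (ZMod 3) (Fn3 (3 ^ r) (3 ^ s))) - (dY ^ 2 + dX * dY)) 3 := by
      have h := key2 hl hNf he (r := r) (s := s) _ (sp 0 0).2.1 (0, 0, 2) (0, 1, 1) (by decide) (by decide) (by decide)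
        (fun t => if t = (0, 0, 2) ∨ t = (0, 1, 1) then 1 else 0)
        (fun t h1 h2 => if_neg (not_or.2 ⟨h1, h2⟩))
        (fun t ht hw => by
          have := (cA 0 t ht hw).1
          rwa [if_pos rfl] at this)
      rw [if_pos (Or.inl rfl), if_pos (Or.inr rfl), m1, one_smul, one_smul, hmY, hmXY] at h
      exact h
    have B0 : Lw ((opL (pB (BAT 0 0)) : Module.End (ZMod 3) (Fn3 (3 ^ r) (3 ^ s))) - (dY ^ 2 - dX * dY)) 3 := by
      have h := key2 hl hNf he (r := r) (s := s) _ (sp 0 0).2.2 (0, 0, 2) (0, 1, 1) (by decide) (by decide) (by decide)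
        (fun t => if t = (0, 0, 2) then 1 else if t = (0, 1, 1) then 2 else 0)
        (fun t h1 h2 => by rw [if_neg h1, if_neg h2])
        (fun t ht hw => by
          have := (cA 0 t ht hw).2
          rwa [if_pos rfl] at this)
      rw [if_pos rfl, if_neg (by decide), if_pos rfl, m1, m2, one_smul, neg_smul3, one_smul, hmY, hmXY,
        ← sub_eq_add_neg] at h
      exact h
    have AB : ∀ f : Fin 5, f = 1 ∨ f = 2 →
        Lw ((opL (pA (BAT 0 f)) : Module.End (ZMod 3) (Fn3 (3 ^ r) (3 ^ s))) - (dY ^ 2 - dX ^ 2)) 3 ∧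
        Lw ((opL (pB (BAT 0 f)) : Module.End (ZMod 3) (Fn3 (3 ^ r) (3 ^ s))) - (dY ^ 2 - dX ^ 2)) 3 := by
      intro f hf
      have hf0 : f ≠ 0 := by rcases hf with rfl | rfl <;> decide
      have hA := key2 hl hNf he (r := r) (s := s) _ (sp 0 f).2.1 (0, 0, 2) (0, 2, 0) (by decide) (by decide) (by decide)
        (fun t => if t = (0, 0, 2) then 1 else if t = (0, 2, 0) then 2 else 0)
        (fun t h1 h2 => by rw [if_neg h1, if_neg h2])
        (fun t ht hw => by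
          have := (cA f t ht hw).1
          rwa [if_neg hf0, if_pos hf] at this)
      have hB := key2 hl hNf he (r := r) (s := s) _ (sp 0 f).2.2 (0, 0, 2) (0, 2, 0) (by decide) (by decide) (by decide)
        (fun t => if t = (0, 0, 2) then 1 else if t = (0, 2, 0) then 2 else 0)
        (fun t h1 h2 => by rw [if_neg h1, if_neg h2])
        (fun t ht hw => by
          have := (cA f t ht hw).2
          rwa [if_neg hf0, if_pos hf] at this)
      rw [if_pos rfl, if_neg (by decide), if_pos rfl, m1, m2, one_smul, neg_smul3, one_smul, hmY, hmX,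
        ← sub_eq_add_neg] at hA hB
      exact ⟨hA, hB⟩
    have CD : ∀ f : Fin 5, f ≠ 0 → f ≠ 1 → f ≠ 2 →
        Lw (opL (pA (BAT 0 f)) : Module.End (ZMod 3) (Fn3 (3 ^ r) (3 ^ s))) ((3 : ℕ) : ℤ) ∧
        Lw (opL (pB (BAT 0 f)) : Module.End (ZMod 3) (Fn3 (3 ^ r) (3 ^ s))) ((3 : ℕ) : ℤ) := by
      intro f hf0 hf1 hf2
      refine ⟨key0 hl hNf he _ (sp 0 f).2.1 3 (by norm_num) fun t ht hw => ?_,
        key0 hl hNf he _ (sp 0 f).2.2 3 (by norm_num) fun t ht hw => ?_⟩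
      · have := (cA f t ht (by omega)).1
        rwa [if_neg hf0, if_neg (not_or.2 ⟨hf1, hf2⟩), sub_zero] at this
      · have := (cA f t ht (by omega)).2
        rwa [if_neg hf0, if_neg (not_or.2 ⟨hf1, hf2⟩), sub_zero] at this
    obtain ⟨_, _, _, _, _, _, l7, l8, _⟩ := hl r s
    have hX2 : Lw (dX ^ 2 : Module.End (ZMod 3) (Fn3 (3 ^ r) (3 ^ s))) 2 := by
      have := lw_pow hl (dX : Module.End (ZMod 3) (Fn3 (3 ^ r) (3 ^ s))) 1 (by exact_mod_cast l7) 2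
      exact_mod_cast this
    have hY2 : Lw (dY ^ 2 : Module.End (ZMod 3) (Fn3 (3 ^ r) (3 ^ s))) 2 := by
      have := lw_pow hl (dY : Module.End (ZMod 3) (Fn3 (3 ^ r) (3 ^ s))) 1 (by exact_mod_cast l8) 2
      exact_mod_cast this
    have hXY : Lw (dX * dY : Module.End (ZMod 3) (Fn3 (3 ^ r) (3 ^ s))) 2 := by
      have := (hl r s).1 _ _ _ _ l7 l8
      norm_num at this
      exact this
    have ev : Even (d - 2) := by
      obtain ⟨k, hk⟩ := hd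
      exact ⟨k - 1, by omega⟩
    have e3 : d - 2 - 1 = d - 3 := by ring
    have oE : ∀ G : Fn3 (3 ^ r) (3 ^ s), G ∈ Wd3 (d - 2) → oN G - G ∈ Wd3 (d - 3) := by
      intro G hG
      have := wE (d - 2) G hG ev
      rwa [e3] at this
    -- the pieces
    set U : Submodule (ZMod 3) (Fn3 (3 ^ r) (3 ^ s)) := Wd3 (d - 3) with hU
    obtain ⟨P, hP⟩ : ∃ P : Fn3 (3 ^ r) (3 ^ s), P = (dY ^ 2 : Module.End (ZMod 3) (Fn3 (3 ^ r) (3 ^ s))) (F 0) := ⟨_, rfl⟩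
    obtain ⟨Q, hQ⟩ : ∃ Q : Fn3 (3 ^ r) (3 ^ s), Q = (dX * dY : Module.End (ZMod 3) (Fn3 (3 ^ r) (3 ^ s))) (F 0) := ⟨_, rfl⟩
    obtain ⟨Z1, hZ1⟩ : ∃ Z : Fn3 (3 ^ r) (3 ^ s), Z = (dY ^ 2 - dX ^ 2 : Module.End (ZMod 3) (Fn3 (3 ^ r) (3 ^ s))) (F 1) := ⟨_, rfl⟩
    obtain ⟨Z2, hZ2⟩ : ∃ Z : Fn3 (3 ^ r) (3 ^ s), Z = (dY ^ 2 - dX ^ 2 : Module.End (ZMod 3) (Fn3 (3 ^ r) (3 ^ s))) (F 2) := ⟨_, rfl⟩
    have gP : P ∈ (Wd3 (d - 2) : Submodule (ZMod 3) (Fn3 (3 ^ r) (3 ^ s))) := by rw [hP]; exact hY2 d _ (hF 0)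
    have gQ : Q ∈ (Wd3 (d - 2) : Submodule (ZMod 3) (Fn3 (3 ^ r) (3 ^ s))) := by rw [hQ]; exact hXY d _ (hF 0)
    have gZ1 : Z1 ∈ (Wd3 (d - 2) : Submodule (ZMod 3) (Fn3 (3 ^ r) (3 ^ s))) := by
      rw [hZ1, LinearMap.sub_apply]; exact Submodule.sub_mem _ (hY2 d _ (hF 1)) (hX2 d _ (hF 1))
    have gZ2 : Z2 ∈ (Wd3 (d - 2) : Submodule (ZMod 3) (Fn3 (3 ^ r) (3 ^ s))) := by
      rw [hZ2, LinearMap.sub_apply]; exact Submodule.sub_mem _ (hY2 d _ (hF 2)) (hX2 d _ (hF 2))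
    have u1 : opL (pA (BAT 0 0)) (F 0) - (P + Q) ∈ U := by
      have := A0 d (F 0) (hF 0)
      rw [LinearMap.sub_apply, LinearMap.add_apply, ← hP, ← hQ] at this
      exact this
    have u2 : oN (opL (pB (BAT 0 0)) (F 0) - (P - Q)) ∈ U := by
      have := B0 d (F 0) (hF 0)
      rw [LinearMap.sub_apply, LinearMap.sub_apply, ← hP, ← hQ] at this
      exact oN0 _ _ this
    have u3 : opL (pA (BAT 0 1)) (F 1) - Z1 ∈ U := by
      have := (AB 1 (Or.inl rfl)).1 d (F 1) (hF 1)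
      rw [LinearMap.sub_apply, ← hZ1] at this
      exact this
    have u4 : oN (opL (pB (BAT 0 1)) (F 1) - Z1) ∈ U := by
      have := (AB 1 (Or.inl rfl)).2 d (F 1) (hF 1)
      rw [LinearMap.sub_apply, ← hZ1] at this
      exact oN0 _ _ this
    have u5 : opL (pA (BAT 0 2)) (F 2) - Z2 ∈ U := by
      have := (AB 2 (Or.inr rfl)).1 d (F 2) (hF 2)
      rw [LinearMap.sub_apply, ← hZ2] at this
      exact this
    have u6 : oN (opL (pB (BAT 0 2)) (F 2) - Z2) ∈ U := by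
      have := (AB 2 (Or.inr rfl)).2 d (F 2) (hF 2)
      rw [LinearMap.sub_apply, ← hZ2] at this
      exact oN0 _ _ this
    have cd : ∀ f : Fin 5, f ≠ 0 → f ≠ 1 → f ≠ 2 → opL (BAT 0 f) (F f) ∈ U := by
      intro f h0 h1 h2
      obtain ⟨c1, c2⟩ := CD f h0 h1 h2
      rw [(sp 0 f).1]
      have b1 := c1 d (F f) (hF f)
      have b2 := oN0 _ _ (c2 d (F f) (hF f))
      exact Submodule.add_mem _ (by exact_mod_cast b1) (by exact_mod_cast b2)
    have u7 := cd 3 (by decide) (by decide) (by decide)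
    have u8 := cd 4 (by decide) (by decide) (by decide)
    have v1 := oE P gP
    have v2 := oE Q gQ
    have v3 := oE Z1 gZ1
    have v4 := oE Z2 gZ2
    have h3 : ∀ X : Fn3 (3 ^ r) (3 ^ s), (3 : ℕ) • X = 0 := by
      intro X
      funext x y
      change (3 : ℕ) • X x y = 0
      rw [nsmul_eq_mul]
      have : ((3 : ℕ) : ZMod 3) = 0 := by decide
      rw [this, zero_mul]
    have hm : (dX ^ 2 - dY ^ 2 : Module.End (ZMod 3) (Fn3 (3 ^ r) (3 ^ s))) (F 1 + F 2) = -(Z1 + Z2) := by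
      rw [map_add, hZ1, hZ2, LinearMap.sub_apply, LinearMap.sub_apply, LinearMap.sub_apply, LinearMap.sub_apply]
      abel
    rw [hm, sum_BAT ht hr hg F hR 0, Fin.sum_univ_five, (sp 0 0).1, (sp 0 1).1, (sp 0 2).1, ← hP]
    have e := h3 (P + Z1 + Z2)
    rw [map_sub] at u2 u4 u6
    rw [map_sub] at u2
    have tot := Submodule.add_mem _ (Submodule.add_mem _ (Submodule.add_mem _ (Submodule.add_mem _ u1 u2)
      (Submodule.add_mem _ u3 u4)) (Submodule.add_mem _ (Submodule.add_mem _ u5 u6) (Submodule.add_mem _ u7 u8)))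
      (Submodule.add_mem _ (Submodule.sub_mem _ v1 v2) (Submodule.add_mem _ v3 v4))
    have fin : opL (pA (BAT 0 0)) (F 0) + oN (opL (pB (BAT 0 0)) (F 0)) +
        (opL (pA (BAT 0 1)) (F 1) + oN (opL (pB (BAT 0 1)) (F 1))) +
        (opL (pA (BAT 0 2)) (F 2) + oN (opL (pB (BAT 0 2)) (F 2))) + opL (BAT 0 3) (F 3) +
        opL (BAT 0 4) (F 4) + P - -(Z1 + Z2) =
        (opL (pA (BAT 0 0)) (F 0) - (P + Q) + (oN (opL (pB (BAT 0 0)) (F 0)) - (oN P - oN Q)) +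
        (opL (pA (BAT 0 1)) (F 1) - Z1 + (oN (opL (pB (BAT 0 1)) (F 1)) - oN Z1)) +
        (opL (pA (BAT 0 2)) (F 2) - Z2 + (oN (opL (pB (BAT 0 2)) (F 2)) - oN Z2) +
          (opL (BAT 0 3) (F 3) + opL (BAT 0 4) (F 4))) +
        (oN P - P - (oN Q - Q) + (oN Z1 - Z1 + (oN Z2 - Z2)))) + (3 : ℕ) • (P + Z1 + Z2) := by
      abel
    rw [fin, e, add_zero]
    exact tot

end Pool.Agent.Helper94.TH3
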